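import Mathlib

/-!
# Blocks of almost equal size (from helper27, Fk.lean)
-/

namespace Pool.Agent.H15.LD

open Finset

/-- Blocks of almost equal size. -/
theorem blocks (n b : ℕ) (hb : 1 ≤ b) (hn : b * b ≤ n) :
    ∃ β : Fin n → Fin (n / b), (∀ j, (univ.filter fun v => β v = j).card ≤ b + 1) ∧
      ∀ p ≤ b, ∃ X : Finset (Fin n), ∀ j, (X.filter fun v => β v = j).card = p := by
  have hbM : b ≤ n / b := (Nat.le_div_iff_mul_le (by omega)).2 hn
  have hM : 0 < n / b := by omega
  have hlt : n < (n / b) * (b + 1) := by
    have h1 : n < b * (n / b + 1) := by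
      have := Nat.lt_mul_div_succ n (show 0 < b by omega)
      simpa using this
    calc n < b * (n / b + 1) := h1
      _ = b * (n / b) + b := by ring
      _ ≤ b * (n / b) + n / b := Nat.add_le_add_left hbM _
      _ = (n / b) * (b + 1) := by ring
  have hle : b * (n / b) ≤ n := Nat.mul_div_le n b
  refine ⟨fun v => ⟨v.1 % (n / b), Nat.mod_lt _ hM⟩, ?_, ?_⟩
  · intro j
    have h1 : (univ.filter fun v : Fin n => (⟨v.1 % (n / b), Nat.mod_lt _ hM⟩ : Fin (n / b)) = j).card ≤
        (range (b + 1)).card := by
      refine Finset.card_le_card_of_injOn (fun v => v.1 / (n / b)) ?_ ?_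
      · intro v _
        rw [Finset.mem_coe, Finset.mem_range]
        exact Nat.div_lt_of_lt_mul (lt_trans v.2 hlt)
      · intro v hv v' hv' h
        rw [Finset.mem_coe, Finset.mem_filter] at hv hv'
        have h2 : v.1 % (n / b) = v'.1 % (n / b) := by
          have h3 := congrArg Fin.val hv.2
          have h4 := congrArg Fin.val hv'.2
          simp only at h3 h4
          rw [h3, h4]
        have h5 : v.1 / (n / b) = v'.1 / (n / b) := h
        apply Fin.ext
        rw [← Nat.div_add_mod v.1 (n / b), ← Nat.div_add_mod v'.1 (n / b), h2, h5]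
    rw [Finset.card_range] at h1
    exact h1
  · intro p hp
    refine ⟨univ.filter fun v => v.1 / (n / b) < p, ?_⟩
    intro j
    have hlt2 : ∀ q < p, q * (n / b) + j.1 < n := by
      intro q hq
      calc q * (n / b) + j.1 < q * (n / b) + n / b := Nat.add_lt_add_left j.2 _
        _ = (q + 1) * (n / b) := by ring
        _ ≤ b * (n / b) := Nat.mul_le_mul_right _ (by omega)
        _ ≤ n := hle
    have hd : ∀ q, (q * (n / b) + j.1) / (n / b) = q ∧ (q * (n / b) + j.1) % (n / b) = j.1 := by
      intro q
      constructor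
      · rw [mul_comm, Nat.mul_add_div hM, Nat.div_eq_of_lt j.2, add_zero]
      · rw [mul_comm, Nat.mul_add_mod, Nat.mod_eq_of_lt j.2]
    have h1 : (range (p)).card = ((univ.filter fun v : Fin n => v.1 / (n / b) < p).filter
        fun v => (⟨v.1 % (n / b), Nat.mod_lt _ hM⟩ : Fin (n / b)) = j).card := by
      refine Finset.card_bij (fun q hq => (⟨q * (n / b) + j.1, hlt2 q (Finset.mem_range.1 hq)⟩ : Fin n)) ?_ ?_ ?_
      · intro q hq
        rw [Finset.mem_filter, Finset.mem_filter]
        refine ⟨⟨Finset.mem_univ _, ?_⟩, ?_⟩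
        · change (q * (n / b) + j.1) / (n / b) < p
          rw [(hd q).1]
          exact Finset.mem_range.1 hq
        · apply Fin.ext
          exact (hd q).2
      · intro q hq q' hq' h
        have h2 := congrArg Fin.val h
        have h3 : q * (n / b) + j.1 = q' * (n / b) + j.1 := h2
        have h4 : (q * (n / b) + j.1) / (n / b) = (q' * (n / b) + j.1) / (n / b) := by rw [h3]
        rw [(hd q).1, (hd q').1] at h4
        exact h4
      · intro v hv
        rw [Finset.mem_filter, Finset.mem_filter] at hv
        refine ⟨v.1 / (n / b), Finset.mem_range.2 hv.1.2, ?_⟩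
        apply Fin.ext
        have h2 : v.1 % (n / b) = j.1 := congrArg Fin.val hv.2
        change v.1 / (n / b) * (n / b) + j.1 = v.1
        rw [← h2, mul_comm]
        exact Nat.div_add_mod v.1 (n / b)
    rw [← h1, Finset.card_range]

end Pool.Agent.H15.LD
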