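import Pool.Agent.H27.GR.RDefs

/-!
# Resolution refutations with their paths
-/

namespace Pool.Agent.H15.LD

open Finset Pool.Agent.H27.GR

/-- A resolution refutation of `F` together with its derivation: a sequence of clauses with an empty
clause `line top`. Either no rule is given for `line i` and it contains a clause of `F`, or the rule
`(j, k, v)` is given and it contains the resolvent of the earlier clauses `line j` and `line k` on
the variable `v`. -/
structure PathRefutation {V : Type*} [DecidableEq V] (F : Finset (Finset (V × Bool))) where
  /-- the number of clauses -/
  size : ℕ
  /-- the clauses -/
  line : Fin size → Finset (V × Bool)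
  /-- the rule by which a clause is derived -/
  rule : Fin size → Option (Fin size × Fin size × V)
  leaf : ∀ i, rule i = none → ∃ C ∈ F, C ⊆ line i
  step : ∀ i j k v, rule i = some (j, k, v) → j < i ∧ k < i ∧ (v, true) ∈ line j ∧
    (v, false) ∈ line k ∧ (line j).erase (v, true) ∪ (line k).erase (v, false) ⊆ line i
  /-- the empty clause -/
  top : Fin size
  root : line top = ∅

/-- `Path R i w`: some path from the empty clause to `line i` (every clause on it is followed by one
of its two premises) resolves on the variables in the list `w` (with repetitions, the last one
first). -/
inductive Path {V : Type*} [DecidableEq V] {F : Finset (Finset (V × Bool))}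
    (R : PathRefutation F) : Fin R.size → List V → Prop
  | root : Path R R.top []
  | left {i j k : Fin R.size} {v : V} {w : List V} : Path R i w → R.rule i = some (j, k, v) →
      Path R j (v :: w)
  | right {i j k : Fin R.size} {v : V} {w : List V} : Path R i w → R.rule i = some (j, k, v) →
      Path R k (v :: w)

end Pool.Agent.H15.LD
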