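import Pool.Agent.H15.LD.Size
import Pool.Agent.H27.GR.DDefs

/-!
# Refutations of small depth; refutations in which most variables are resolved a few times
-/

namespace Pool.Agent.H15.LD

open Finset Pool.Agent.H27.GR

section
variable {V : Type*} [Fintype V] [DecidableEq V]

theorem sum_count (w : List V) : ∑ v, w.count v = w.length := by
  induction w with
  | nil => simp
  | cons a w ih =>
    simp only [List.count_cons, List.length_cons]
    rw [sum_add_distrib, ih]
    simp

/-- A refutation of small depth with its derivation. -/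
theorem exists_path {F : Finset (Finset (V × Bool))} {d : ℕ} (R : DepthRefutation F d) :
    ∃ P : PathRefutation F, P.size = R.size ∧ ∀ i w, Path P i w → w.length ≤ d := by
  classical
  have key : ∀ i : Fin R.size, ∃ o : Option (Fin R.size × Fin R.size × V),
      (o = none → ∃ C ∈ F, C ⊆ R.line i) ∧ ∀ j k v, o = some (j, k, v) → j < i ∧ k < i ∧
        (v, true) ∈ R.line j ∧ (v, false) ∈ R.line k ∧
        (R.line j).erase (v, true) ∪ (R.line k).erase (v, false) ⊆ R.line i ∧
        R.height j < R.height i ∧ R.height k < R.height i := by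
    intro i
    rcases R.step i with h | ⟨j, hj, k, hk, v, h1, h2, h3, h4, h5⟩
    · refine ⟨none, fun _ => h, ?_⟩
      intro j k v h1
      exact absurd h1 (by simp)
    · refine ⟨some (j, k, v), ?_, ?_⟩
      · intro h
        exact absurd h (by simp)
      · intro j' k' v' h
        cases h
        exact ⟨hj, hk, h1, h2, h3, h4, h5⟩
  choose rule hr1 hr2 using key
  obtain ⟨top, ht1, ht2⟩ := R.root
  refine ⟨{ size := R.size, line := R.line, rule := rule, leaf := hr1,
            step := fun i j k v h => ⟨(hr2 i j k v h).1, (hr2 i j k v h).2.1, (hr2 i j k v h).2.2.1,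
              (hr2 i j k v h).2.2.2.1, (hr2 i j k v h).2.2.2.2.1⟩,
            top := top, root := ht1 }, rfl, ?_⟩
  intro i w h
  suffices hs : w.length + R.height i ≤ d by omega
  induction h with
  | root => simpa using ht2
  | @left i j k v w h1 h2 ih =>
    have h3 := (hr2 i j k v h2).2.2.2.2.2.1
    rw [List.length_cons]
    omega
  | @right i j k v w h1 h2 ih =>
    have h3 := (hr2 i j k v h2).2.2.2.2.2.2
    rw [List.length_cons]
    omega

end

section
variable {V : Type*} [Fintype V] [DecidableEq V] {M m p : ℕ} (β : V → Fin M)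
  (E : Fin m → Fin M → ZMod p) (c : Fin m → ZMod p)

/-- Refutations of small depth are large. -/
theorem depth_size_ge [Fact p.Prime] {r z b f S d : ℕ} (hr : 1 ≤ r) (hE : Exp E r z)
    (hc : ∀ I : Finset (Fin m), I.card ≤ r → ∃ x : Fin M → ZMod p, ∀ e ∈ I, ∑ j, E e j * x j = c e)
    (hp : ∀ j, p - 1 ≤ (univ.filter fun v => β v = j).card)
    (hb : ∀ j, (univ.filter fun v => β v = j).card ≤ b) (R : DepthRefutation (formula β E c) d)
    (hS : d < S * (f - (z * b + (S + 2) * p * M))) :
    2 ^ Fintype.card V ≤ R.size *
      (univ.filter fun Θ : Finset V => Θ.card ≤ f + (z * b + (S + 2) * p * M)).card := by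
  obtain ⟨P, hP, hPd⟩ := exists_path R
  rw [← hP]
  refine path_size_ge β E c hr hE hc hp hb P (D := d) ?_ hS
  intro i w h
  calc ∑ v, min (w.count v) S ≤ ∑ v, w.count v := sum_le_sum fun v _ => min_le_left _ _
    _ = w.length := sum_count w
    _ ≤ d := hPd i w h

/-- Refutations in which on every path all but `d` variables are resolved at most `t` times are
large. -/
theorem read_size_ge [Fact p.Prime] {r z b f S d t : ℕ} (hr : 1 ≤ r) (hE : Exp E r z)
    (hc : ∀ I : Finset (Fin m), I.card ≤ r → ∃ x : Fin M → ZMod p, ∀ e ∈ I, ∑ j, E e j * x j = c e)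
    (hp : ∀ j, p - 1 ≤ (univ.filter fun v => β v = j).card)
    (hb : ∀ j, (univ.filter fun v => β v = j).card ≤ b) (R : PathRefutation (formula β E c))
    (hR : ∀ i w, Path R i w → (univ.filter fun v => t < w.count v).card ≤ d)
    (hS : t * Fintype.card V + S * d < S * (f - (z * b + (S + 2) * p * M))) :
    2 ^ Fintype.card V ≤ R.size *
      (univ.filter fun Θ : Finset V => Θ.card ≤ f + (z * b + (S + 2) * p * M)).card := by
  refine path_size_ge β E c hr hE hc hp hb R (D := t * Fintype.card V + S * d) ?_ hS
  intro i w h
  calc ∑ v, min (w.count v) S ≤ ∑ v, (t + if t < w.count v then S else 0) := by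
        refine sum_le_sum fun v _ => ?_
        split_ifs with h1
        · exact le_trans (min_le_right _ _) (Nat.le_add_left _ _)
        · exact le_trans (min_le_left _ _) (by omega)
    _ = t * Fintype.card V + (univ.filter fun v => t < w.count v).card * S := by
        rw [sum_add_distrib, ← sum_filter, sum_const, sum_const, card_univ, smul_eq_mul,
          smul_eq_mul, mul_comm]
    _ ≤ t * Fintype.card V + S * d := by
        rw [mul_comm S d]
        exact Nat.add_le_add_left (Nat.mul_le_mul_right _ (hR i w h)) _

end

end Pool.Agent.H15.LD
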