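import Pool.Agent.H27.GR.Sz
import Pool.Agent.H27.GR.Nu
import Pool.Agent.H27.GR.UpD
import Pool.Agent.H15.LD.Num
import Pool.Agent.H15.LD.Blo
import Pool.Agent.H15.LD.Depth
import Pool.Agent.H19.GR.ExpB

/-!
# The theorem, with the depth threshold
-/

namespace Pool.Agent.H15.LD

open Finset Pool.Agent.H27.GR

/-- The final statement: base 1.537 for all refutations; base 2 up to depth `c k n`, base at most
`√3` with depth `k n`. -/
theorem final4 (ε : ℝ) (hε : 0 < ε) (hε1 : ε ≤ 1) : ∃ c : ℝ, 0 < c ∧ ∃ k₀ : ℕ, ∀ k ≥ k₀,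
    ∃ n₀ : ℕ, ∀ n ≥ n₀,
    ∃ F : Finset (Finset (Fin n × Bool)), (∀ D ∈ F, D.card ≤ k) ∧ F.card ≤ 2 ^ (k + 1) * n ∧
      (¬ ∃ x, ∀ D ∈ F, ClauseSat x D) ∧
      (∀ R : Refutation F, (1537 / 1000 : ℝ) ^ n ≤ R.size) ∧
      (∃ R : DepthRefutation F (k * n), (R.size : ℝ) ≤ (√3 + ε) ^ n) ∧
      ∀ d : ℕ, (d : ℝ) ≤ c * k * n → ∀ R : DepthRefutation F d, (2 - ε) ^ n ≤ R.size := by
  obtain ⟨δ, hδ, hnum⟩ := numbers4 ε hε hε1
  obtain ⟨p, hp, w, M₀, hexp⟩ := Pool.Agent.H19.GR.B.expansion δ hδ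
  obtain ⟨c, hc0, b₀, hb1, hpb, x, hx0, hx1, hnum⟩ := hnum p hp.two_le
  have : Fact p.Prime := ⟨hp⟩
  obtain ⟨w', hw'⟩ : ∃ w' : ℕ, w' = w + 1 := ⟨_, rfl⟩
  have hw0 : 0 < w' := by omega
  refine ⟨c / (2 * w'), by positivity, w' * (b₀ + 5) + 1, fun k hk => ?_⟩
  obtain ⟨b, hb⟩ : ∃ b : ℕ, b = (k - 1) / w' - 1 := ⟨_, rfl⟩
  have hq : b₀ + 5 ≤ (k - 1) / w' := by
    rw [Nat.le_div_iff_mul_le hw0, mul_comm]
    omega
  have hbb : b₀ ≤ b := by omega
  have hwb : w' * (b + 1) ≤ k - 1 := by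
    have h1 : b + 1 = (k - 1) / w' := by omega
    rw [h1]
    exact Nat.mul_div_le _ _
  have hkb : k ≤ 2 * w' * b := by
    have h1 : b + 1 = (k - 1) / w' := by omega
    have h2 : k - 1 < w' * ((k - 1) / w' + 1) := by
      have := Nat.lt_mul_div_succ (k - 1) hw0
      simpa using this
    rw [← h1] at h2
    have h3 : w' * (b + 1 + 1) ≤ w' * (2 * b) := Nat.mul_le_mul_left _ (by omega)
    have h4 : w' * (2 * b) = 2 * w' * b := by ring
    omega
  have hwb' : w * (b + 1) ≤ k - 1 := le_trans (Nat.mul_le_mul_right _ (by omega)) hwb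
  obtain ⟨n₀, hn0⟩ := hnum b hbb w
  refine ⟨max n₀ (max (b * (M₀ + 1)) (max (b * b) k)), fun n hn => ?_⟩
  have h1 : n₀ ≤ n := le_trans (le_max_left _ _) hn
  have h2 : b * (M₀ + 1) ≤ n := le_trans (le_trans (le_max_left _ _) (le_max_right _ _)) hn
  have h3 : b * b ≤ n := le_trans (le_trans (le_trans (le_max_left _ _) (le_max_right _ _))
    (le_max_right _ _)) hn
  have h3' : k ≤ n := le_trans (le_trans (le_trans (le_max_right _ _)
    (le_max_right _ _)) (le_max_right _ _)) hn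
  have hM : M₀ ≤ n / b := by
    have h4 : M₀ + 1 ≤ n / b := (Nat.le_div_iff_mul_le (by omega)).2 (by rw [mul_comm]; exact h2)
    omega
  obtain ⟨β, hβ, hX⟩ := blocks n b (by omega) h3
  obtain ⟨X, hX1⟩ := hX (p - 1) (by omega)
  obtain ⟨Y, hY⟩ := hX p (by omega)
  have hfib : ∀ j, p - 1 ≤ (univ.filter fun v => β v = j).card := by
    intro j
    rw [← hX1 j]
    exact card_le_card (filter_subset_filter _ (subset_univ _))
  obtain ⟨r, m, hr, hm, E, c', hw, hE, hc, hun⟩ := hexp (n / b) hM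
  obtain ⟨hn1, hn2, f, S, hS, hn3⟩ := hn0 n h1
  refine ⟨formula β E c', fun D hD => (formula_width β E c' hw hβ D hD).trans (by omega), ?_,
    formula_unsat β E c' hun, ?_, ?_, ?_⟩
  · calc (formula β E c').card ≤ m * 2 ^ (w * (b + 1)) := formula_card β E c' hw hβ
      _ ≤ (2 * n) * 2 ^ (w * (b + 1)) :=
        Nat.mul_le_mul_right _ (le_trans hm (Nat.mul_le_mul_left 2 (Nat.div_le_self n b)))
      _ = 2 ^ (w * (b + 1) + 1) * n := by ring
      _ ≤ 2 ^ (k + 1) * n := Nat.mul_le_mul_right _ (Nat.pow_le_pow_right (by norm_num) (by omega))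
  · intro R
    have h4 := size_ge β E c' hr hE hc hβ X hX1 R
    have h5 := card_small (K := {v // v ∉ X}) (⌈δ * ((n / b : ℕ) : ℝ)⌉₊ * (b + 1) + p * (n / b)) x
      hx0 hx1
    have h6 : Fintype.card {v // v ∉ X} ≤ n := by
      have h7 := Fintype.card_subtype_le (fun v : Fin n => v ∉ X)
      rwa [Fintype.card_fin] at h7
    have h8 : (1 + x) ^ Fintype.card {v // v ∉ X} ≤ (1 + x) ^ n :=
      pow_le_pow_right₀ (by linarith) h6
    refine hn1 (R.size : ℝ) _ (Nat.cast_nonneg _) (Nat.cast_nonneg _) (le_trans h5 h8) ?_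
    rw [Fintype.card_fin] at h4
    have h9 : (((b + 1 : ℕ) : ℝ) + 1) = (b : ℝ) + 1 + 1 := by push_cast; ring
    rw [h9] at h4
    exact h4
  · obtain ⟨R, hR⟩ := upperD β E c' hw hβ hun
    have h4 : (R.size : ℝ) ≤ 3 ^ (n / 2) * 2 ^ (n / b + w * (b + 1) + 1) := by
      have hR' : R.size ≤ 3 ^ (n / 2) * 2 ^ (n / b + w * (b + 1) + 1) :=
        hR.trans_eq (by simp only [Fintype.card_fin])
      exact_mod_cast hR'
    refine ⟨⟨R.size, R.line, R.height, R.step, ?_⟩, h4.trans hn2⟩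
    obtain ⟨i, hi1, hi2⟩ := R.root
    refine ⟨i, hi1, hi2.trans ?_⟩
    rw [Fintype.card_fin]
    have hk1 : 1 ≤ k := by omega
    calc (n + 1) * (w * (b + 1)) ≤ (n + 1) * (k - 1) := Nat.mul_le_mul_left _ hwb'
      _ = n * (k - 1) + (k - 1) := by ring
      _ ≤ n * (k - 1) + n := Nat.add_le_add_left (by omega) _
      _ = (k - 1 + 1) * n := by ring
      _ = k * n := by rw [Nat.sub_add_cancel hk1]
  · intro d hd R
    have hd2 : (d : ℝ) ≤ c * b * n := by
      refine hd.trans ?_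
      have hk2 : (k : ℝ) ≤ 2 * w' * b := by exact_mod_cast hkb
      have hw1 : (0 : ℝ) < w' := by exact_mod_cast hw0
      have h4 : c / (2 * w') * k ≤ c * b := by
        calc c / (2 * w') * k ≤ c / (2 * w') * (2 * w' * b) :=
              mul_le_mul_of_nonneg_left hk2 (by positivity)
          _ = c * b := by
              field_simp
      exact mul_le_mul_of_nonneg_right h4 (Nat.cast_nonneg _)
    have h4 := depth_size_ge β E c' hr hE hc hfib hβ (f := f) (S := S) R (hS d hd2)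
    have h5 := card_small (K := Fin n) (f + (⌈δ * ((n / b : ℕ) : ℝ)⌉₊ * (b + 1) +
      (S + 2) * p * (n / b))) x hx0 hx1
    rw [Fintype.card_fin] at h4 h5
    exact hn3 (R.size : ℝ) _ (Nat.cast_nonneg _) (Nat.cast_nonneg _) h5 (by exact_mod_cast h4)

end Pool.Agent.H15.LD
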