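import Pool.Agent.H15.LD.Walk
import Pool.Agent.H27.GR.RFb

/-!
# The size of refutations with short paths
-/

namespace Pool.Agent.H15.LD

open Finset Pool.Agent.H27.GR

section
variable {V : Type*} [Fintype V] [DecidableEq V] {M m p : ℕ} (β : V → Fin M)
  (E : Fin m → Fin M → ZMod p) (c : Fin m → ZMod p)

/-- At an alive and bad clause almost all variables are static. -/
theorem nonstatic_card [Fact p.Prime] {r z b q : ℕ} (hE : Exp E r z)
    (hb : ∀ j, (univ.filter fun v => β v = j).card ≤ b) (x : V → Bool) (Kt : Finset V)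
    (C : Finset (V × Bool)) (ha : AliveS β E c r Kt x C) (hbad : BadS β E c (2 * r) Kt x C)
    (hinv : Inv β p q Kt C) :
    (univ \ Kt).card ≤ z * b + M * (q + 2 * (p - 1)) := by
  classical
  have hfree := free_blocksS β E c hE Kt x C ha hbad
  have h1 : (univ \ Kt).card = ∑ j : Fin M, ((univ \ Kt).filter fun u => β u = j).card :=
    card_eq_sum_card_fiberwise (f := β) (t := univ) (fun u _ => mem_coe.2 (mem_univ _))
  have h2 : ∀ j : Fin M, ((univ \ Kt).filter fun u => β u = j).card ≤
      (if j ∈ freeS (p := p) β Kt C then b else 0) + (q + 2 * (p - 1)) := by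
    intro j
    by_cases hj : j ∈ freeS (p := p) β Kt C
    · rw [if_pos hj]
      have h3 : ((univ \ Kt).filter fun u => β u = j).card ≤ (univ.filter fun v => β v = j).card :=
        card_le_card (by
          intro u hu
          rw [mem_filter] at hu ⊢
          exact ⟨mem_univ _, hu.2⟩)
      have := hb j
      omega
    · rw [if_neg hj]
      have h3 : (univ.filter fun v : V => β v = j ∧ v ∉ C.image Prod.fst ∧ v ∉ Kt).card < p - 1 := by
        by_contra h
        exact hj (mem_filter.2 ⟨mem_univ _, not_lt.1 h⟩)
      have h4 : ((univ \ Kt).filter fun u => β u = j).card ≤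
          ((vars C \ Kt).filter fun u => β u = j).card +
            (univ.filter fun v : V => β v = j ∧ v ∉ C.image Prod.fst ∧ v ∉ Kt).card := by
        rw [← card_union_of_disjoint]
        · refine card_le_card ?_
          intro u hu
          rw [mem_filter, mem_sdiff] at hu
          by_cases h7 : u ∈ vars C
          · exact mem_union_left _ (mem_filter.2 ⟨mem_sdiff.2 ⟨h7, hu.1.2⟩, hu.2⟩)
          · exact mem_union_right _ (mem_filter.2 ⟨mem_univ _, hu.2, h7, hu.1.2⟩)
        · rw [Finset.disjoint_left]
          intro u hu hu2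
          rw [mem_filter, mem_sdiff] at hu
          exact (mem_filter.1 hu2).2.2.1 hu.1.1
      rcases hinv j with h5 | h5
      · omega
      · omega
  calc (univ \ Kt).card = ∑ j : Fin M, ((univ \ Kt).filter fun u => β u = j).card := h1
    _ ≤ ∑ j : Fin M, ((if j ∈ freeS (p := p) β Kt C then b else 0) + (q + 2 * (p - 1))) :=
      sum_le_sum fun j _ => h2 j
    _ = (freeS (p := p) β Kt C).card * b + M * (q + 2 * (p - 1)) := by
      rw [sum_add_distrib, ← sum_filter, sum_const, sum_const, card_univ, Fintype.card_fin]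
      simp
    _ ≤ z * b + M * (q + 2 * (p - 1)) := by
      exact Nat.add_le_add_right (Nat.mul_le_mul_right _ hfree.le) _

/-- The invariant at the end of a phase. -/
theorem inv_end {q : ℕ} {Kt : Finset V} {C : Finset (V × Bool)} (h : Inv β p q Kt C) :
    Inv β p (q + (p - 1)) (Kt ∩ vars C) C := by
  intro b
  left
  have h1 : vars C \ (Kt ∩ vars C) = vars C \ Kt := by
    ext u
    simp only [mem_sdiff, mem_inter]
    constructor
    · rintro ⟨h1, h2⟩
      exact ⟨h1, fun h3 => h2 ⟨h3, h1⟩⟩
    · rintro ⟨h1, h2⟩
      exact ⟨h1, fun h3 => h2 h3.1⟩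
  rw [h1]
  rcases h b with h2 | h2
  · omega
  · refine le_trans (card_le_card ?_) h2
    intro u hu
    rw [mem_filter, mem_sdiff] at hu ⊢
    exact ⟨⟨mem_univ _, hu.1.2⟩, hu.2⟩

/-- The root is alive. -/
theorem root_alive [Fact p.Prime] {r : ℕ}
    (hc : ∀ I : Finset (Fin m), I.card ≤ r → ∃ x : Fin M → ZMod p, ∀ e ∈ I, ∑ j, E e j * x j = c e)
    (hp : ∀ j, p - 1 ≤ (univ.filter fun v => β v = j).card) (x : V → Bool) :
    AliveS β E c r ∅ x ∅ := by
  classical
  have hp0 : 0 < p := (Fact.out : p.Prime).pos
  have : NeZero p := ⟨hp0.ne'⟩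
  intro I hI
  obtain ⟨z, hz⟩ := hc I hI
  have hY : ∀ j, ∃ y : V → Bool,
      (∑ v ∈ univ.filter (fun v => β v = j), if y v then (1 : ZMod p) else 0) = z j := by
    intro j
    exact bits _ (hp j) (z j)
  choose Y hY using hY
  have hb : ∀ j, bsum β p (fun v => Y (β v) v) j = z j := by
    intro j
    rw [← hY j]
    unfold bsum
    refine sum_congr rfl fun v hv => ?_
    have hv2 : β v = j := (mem_filter.1 hv).2
    subst hv2
    rfl
  refine ⟨fun v => Y (β v) v, ⟨?_, ?_⟩, ?_⟩
  · intro v hv; exact absurd hv (notMem_empty v)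
  · rintro ⟨l, hl, _⟩
    exact absurd hl (notMem_empty l)
  · intro e he
    unfold EqSat
    simp only [hb]
    exact hz e he

/-- After `s` releases: either a clause that forgets few static variables has been found, or many
variables have been resolved often. -/
theorem chain [Fact p.Prime] {r z b f S : ℕ} (hr : 1 ≤ r) (hE : Exp E r z)
    (hc : ∀ I : Finset (Fin m), I.card ≤ r → ∃ x : Fin M → ZMod p, ∀ e ∈ I, ∑ j, E e j * x j = c e)
    (hp : ∀ j, p - 1 ≤ (univ.filter fun v => β v = j).card)
    (hb : ∀ j, (univ.filter fun v => β v = j).card ≤ b) (R : PathRefutation (formula β E c))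
    (x : V → Bool) : ∀ s ≤ S, ∃ (j : Fin R.size) (Kt : Finset V) (w : List V), Path R j w ∧
      AliveS β E c r Kt x (R.line j) ∧ BadS β E c (2 * r) Kt x (R.line j) ∧
      (∃ q ≤ s * (p - 1), Inv β p q Kt (R.line j)) ∧
      ((Kt \ vars (R.line j)).card ≤ f ∨
        s * (f - (z * b + (S + 2) * p * M)) ≤ ∑ v, min (w.count v) s) := by
  classical
  intro s
  induction s with
  | zero =>
    intro _
    have ha : AliveS β E c r ∅ x (R.line R.top) := by
      rw [R.root]
      exact root_alive β E c hc hp x
    have hinv : Inv β p 0 ∅ (R.line R.top) := by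
      intro b
      left
      rw [R.root]
      simp [vars]
    obtain ⟨j, Kt, u, h1, h2, h3, h4, _⟩ := phase β E c hr R x R.top.val R.top rfl ∅ []
      Path.root ha hinv
    exact ⟨j, Kt, u ++ [], h1, h2, h3, ⟨0, by omega, h4⟩, Or.inr (by simp)⟩
  | succ s ih =>
    intro hs
    obtain ⟨j, Kt, w, h1, h2, h3, ⟨q, hq, h4⟩, h5⟩ := ih (by omega)
    by_cases h6 : (Kt \ vars (R.line j)).card ≤ f
    · refine ⟨j, Kt, w, h1, h2, h3, ⟨q, le_trans hq (Nat.mul_le_mul_right _ (by omega)), h4⟩,
        Or.inl h6⟩
    have h7 := h5.resolve_left h6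
    have ha : AliveS β E c r (Kt ∩ vars (R.line j)) x (R.line j) := by
      intro I hI
      obtain ⟨y, hy, hy2⟩ := h2 I hI
      exact ⟨y, ⟨fun v hv => hy.1 v (mem_inter.1 hv).1, hy.2⟩, hy2⟩
    obtain ⟨j', Kt', u, g1, g2, g3, g4, g5⟩ := phase β E c hr R x j.val j rfl _ w h1 ha
      (inv_end β h4)
    refine ⟨j', Kt', u ++ w, g1, g2, g3, ⟨q + (p - 1), ?_, g4⟩, Or.inr ?_⟩
    · calc q + (p - 1) ≤ s * (p - 1) + (p - 1) := Nat.add_le_add_right hq _
        _ = (s + 1) * (p - 1) := by ring
    · have hns := nonstatic_card β E c hE hb x Kt' _ g2 g3 g4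
      have hns2 : (univ \ Kt').card ≤ z * b + (S + 2) * p * M := by
        refine le_trans hns (Nat.add_le_add_left ?_ _)
        have k1 : q + (p - 1) + 2 * (p - 1) ≤ (S + 2) * p := by
          have k2 : q ≤ s * (p - 1) := hq
          have k3 : s * (p - 1) + 3 * (p - 1) = (s + 3) * (p - 1) := by ring
          have k4 : (s + 3) * (p - 1) ≤ (S + 2) * p := Nat.mul_le_mul (by omega) (by omega)
          omega
        calc M * (q + (p - 1) + 2 * (p - 1)) ≤ M * ((S + 2) * p) := Nat.mul_le_mul_left _ k1
          _ = (S + 2) * p * M := by ring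
      obtain ⟨G, hG⟩ : ∃ G, G = (Kt \ vars (R.line j)) ∩ Kt' := ⟨_, rfl⟩
      have hGc : f - (z * b + (S + 2) * p * M) ≤ G.card := by
        have k1 : (Kt \ vars (R.line j)).card ≤ G.card + (univ \ Kt').card := by
          rw [← card_union_of_disjoint]
          · refine card_le_card ?_
            intro v hv
            by_cases h8 : v ∈ Kt'
            · exact mem_union_left _ (by rw [hG]; exact mem_inter.2 ⟨hv, h8⟩)
            · exact mem_union_right _ (mem_sdiff.2 ⟨mem_univ _, h8⟩)
          · rw [Finset.disjoint_left]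
            intro v hv hv2
            rw [hG] at hv
            exact (mem_sdiff.1 hv2).2 (mem_inter.1 hv).2
        omega
      have hGu : ∀ v ∈ G, 1 ≤ u.count v := by
        intro v hv
        rw [hG] at hv
        have k1 := mem_inter.1 hv
        have k2 := mem_sdiff.1 k1.1
        exact List.count_pos_iff.2 (g5 v k1.2 fun h => k2.2 (mem_inter.1 h).2)
      calc (s + 1) * (f - (z * b + (S + 2) * p * M)) =
            s * (f - (z * b + (S + 2) * p * M)) + (f - (z * b + (S + 2) * p * M)) := by ring
        _ ≤ (∑ v, min (w.count v) s) + G.card := Nat.add_le_add h7 hGc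
        _ = ∑ v, (min (w.count v) s + if v ∈ G then 1 else 0) := by
          rw [sum_add_distrib, ← sum_filter, sum_const, smul_eq_mul, mul_one]
          congr 2
          ext v
          simp
        _ ≤ ∑ v, min ((u ++ w).count v) (s + 1) := by
          refine sum_le_sum fun v _ => ?_
          rw [List.count_append]
          split_ifs with h8
          · have := hGu v h8
            omega
          · omega

/-- A refutation is large if its paths are short: every path resolves, outside a set of few
variables, few times. -/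
theorem path_size_ge [Fact p.Prime] {r z b f S D : ℕ} (hr : 1 ≤ r) (hE : Exp E r z)
    (hc : ∀ I : Finset (Fin m), I.card ≤ r → ∃ x : Fin M → ZMod p, ∀ e ∈ I, ∑ j, E e j * x j = c e)
    (hp : ∀ j, p - 1 ≤ (univ.filter fun v => β v = j).card)
    (hb : ∀ j, (univ.filter fun v => β v = j).card ≤ b) (R : PathRefutation (formula β E c))
    (hR : ∀ i w, Path R i w → ∑ v, min (w.count v) S ≤ D)
    (hS : D < S * (f - (z * b + (S + 2) * p * M))) :
    2 ^ Fintype.card V ≤ R.size *
      (univ.filter fun Θ : Finset V => Θ.card ≤ f + (z * b + (S + 2) * p * M)).card := by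
  classical
  have key : ∀ x : V → Bool, ∃ i : Fin R.size,
      (univ.filter fun v => x v ≠ decide ((v, false) ∈ R.line i)).card ≤
        f + (z * b + (S + 2) * p * M) := by
    intro x
    obtain ⟨j, Kt, w, h1, h2, h3, ⟨q, hq, h4⟩, h5⟩ := chain β E c (f := f) hr hE hc hp hb R x S le_rfl
    have h6 : (Kt \ vars (R.line j)).card ≤ f := by
      rcases h5 with h5 | h5
      · exact h5
      · have := hR j w h1
        omega
    refine ⟨j, ?_⟩
    have hns := nonstatic_card β E c hE hb x Kt _ h2 h3 h4
    have hns2 : (univ \ Kt).card ≤ z * b + (S + 2) * p * M := by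
      refine le_trans hns (Nat.add_le_add_left ?_ _)
      have k1 : q + 2 * (p - 1) ≤ (S + 2) * p := by
        have k3 : S * (p - 1) + 2 * (p - 1) = (S + 2) * (p - 1) := by ring
        have k4 : (S + 2) * (p - 1) ≤ (S + 2) * p := Nat.mul_le_mul_left _ (by omega)
        omega
      calc M * (q + 2 * (p - 1)) ≤ M * ((S + 2) * p) := Nat.mul_le_mul_left _ k1
        _ = (S + 2) * p * M := by ring
    have hsub : (univ.filter fun v => x v ≠ decide ((v, false) ∈ R.line j)) ⊆
        (Kt \ vars (R.line j)) ∪ (univ \ Kt) := by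
      intro v hv
      by_cases hvK : v ∈ Kt
      · refine mem_union_left _ (mem_sdiff.2 ⟨hvK, fun hvv => (mem_filter.1 hv).2 ?_⟩)
        obtain ⟨y, hy, _⟩ := h2 ∅ (by simp)
        obtain ⟨l, hl, hlv⟩ := mem_image.1 hvv
        have hy1 : y v = x v := hy.1 v hvK
        by_cases hf : (v, false) ∈ R.line j
        · have : y v ≠ false := fun h => hy.2 ⟨(v, false), hf, h⟩
          rw [hy1] at this
          simp only [hf, decide_true]
          revert this
          cases x v <;> simp
        · have hl2 : l = (v, true) := by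
            rcases l with ⟨l1, l2⟩
            simp only at hlv
            subst hlv
            cases l2
            · exact absurd hl hf
            · rfl
          rw [hl2] at hl
          have : y v ≠ true := fun h => hy.2 ⟨(v, true), hl, h⟩
          rw [hy1] at this
          simp only [hf, decide_false]
          revert this
          cases x v <;> simp
      · exact mem_union_right _ (mem_sdiff.2 ⟨mem_univ _, hvK⟩)
    calc (univ.filter fun v => x v ≠ decide ((v, false) ∈ R.line j)).card
        ≤ ((Kt \ vars (R.line j)) ∪ (univ \ Kt)).card := card_le_card hsub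
      _ ≤ (Kt \ vars (R.line j)).card + (univ \ Kt).card := card_union_le _ _
      _ ≤ f + (z * b + (S + 2) * p * M) := Nat.add_le_add h6 hns2
  choose g hg using key
  have hinj : Function.Injective (fun x : V → Bool =>
      ((g x, (⟨univ.filter fun v => x v ≠ decide ((v, false) ∈ R.line (g x)),
        mem_filter.2 ⟨mem_univ _, hg x⟩⟩ :
          {Θ // Θ ∈ univ.filter fun Θ : Finset V => Θ.card ≤ f + (z * b + (S + 2) * p * M)})) :
        Fin R.size × {Θ // Θ ∈ univ.filter fun Θ : Finset V =>
          Θ.card ≤ f + (z * b + (S + 2) * p * M)})) := by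
    intro x x' h
    have h1 : g x = g x' := congrArg Prod.fst h
    have h2 := congrArg (fun t => (Prod.snd t).1) h
    simp only at h2
    rw [← h1] at h2
    funext v
    have h3 := congrArg (fun s : Finset V => v ∈ s) h2
    simp only [mem_filter, mem_univ, true_and, eq_iff_iff] at h3
    revert h3
    cases x v <;> cases x' v <;> cases decide ((v, false) ∈ R.line (g x)) <;> simp
  have hcard := Fintype.card_le_of_injective _ hinj
  rw [Fintype.card_fun, Fintype.card_bool, Fintype.card_prod, Fintype.card_fin,
    Fintype.card_coe] at hcard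
  exact hcard

end

end Pool.Agent.H15.LD
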