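import Pool.Agent.H15.LD.Defs
import Pool.Agent.H27.GR.Fo
import Pool.Agent.H27.GR.Bi

/-!
# The walk of an assignment through a refutation, one phase
-/

namespace Pool.Agent.H15.LD

open Finset Pool.Agent.H27.GR

section
variable {V : Type*} [Fintype V] [DecidableEq V] {M m p : ℕ} (β : V → Fin M)
  (E : Fin m → Fin M → ZMod p) (c : Fin m → ZMod p)

/-- Change the value at `v` and keep all block sums. -/
theorem adjust [Fact p.Prime] (a : Bool) (y : V → Bool) (v : V) (D : Finset V)
    (hv : v ∉ D) (hDb : ∀ u ∈ D, β u = β v) (hD : p - 1 ≤ D.card) :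
    ∃ y' : V → Bool, y' v = a ∧ (∀ u, u ≠ v → u ∉ D → y' u = y u) ∧
      ∀ j, bsum β p y' j = bsum β p y j := by
  classical
  have hp : 0 < p := (Fact.out : p.Prime).pos
  have : NeZero p := ⟨hp.ne'⟩
  obtain ⟨Bl, hBl⟩ : ∃ Bl, Bl = univ.filter fun u : V => β u = β v := ⟨_, rfl⟩
  obtain ⟨Rs, hRs⟩ : ∃ Rs, Rs = Bl \ insert v D := ⟨_, rfl⟩
  have hsplit : Bl = insert v (Rs ∪ D) := by
    ext u
    simp only [hBl, hRs, mem_filter, mem_univ, true_and, mem_insert, mem_union, mem_sdiff]
    constructor
    · intro h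
      by_cases h1 : u = v
      · exact Or.inl h1
      · by_cases h2 : u ∈ D
        · exact Or.inr (Or.inr h2)
        · exact Or.inr (Or.inl ⟨h, fun h3 => h3.elim h1 h2⟩)
    · rintro (h | h | h)
      · rw [h]
      · exact h.1
      · exact hDb u h
  have hvn : v ∉ Rs ∪ D := by
    simp only [hRs, mem_union, mem_sdiff, mem_insert]
    rintro (h | h)
    · exact h.2 (Or.inl trivial)
    · exact hv h
  have hdis : Disjoint Rs D := by
    rw [Finset.disjoint_left]
    intro u hu hu2
    simp only [hRs, mem_sdiff, mem_insert] at hu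
    exact hu.2 (Or.inr hu2)
  obtain ⟨z, hz⟩ := bits D hD (bsum β p y (β v) -
    (∑ u ∈ Rs, if y u then (1 : ZMod p) else 0) - (if a then (1 : ZMod p) else 0))
  refine ⟨fun u => if u = v then a else if u ∈ D then z u else y u, by simp, ?_, ?_⟩
  · intro u hu hu2
    simp [hu, hu2]
  · intro j
    by_cases hj : j = β v
    · subst hj
      unfold bsum
      rw [← hBl]
      have e1 : (∑ u ∈ Bl, if (if u = v then a else if u ∈ D then z u else y u) = true
          then (1 : ZMod p) else 0) = (if a = true then 1 else 0) +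
          ((∑ u ∈ Rs, if y u = true then (1 : ZMod p) else 0) +
            ∑ u ∈ D, if z u = true then (1 : ZMod p) else 0) := by
        rw [hsplit, sum_insert hvn, sum_union hdis]
        congr 1
        · simp
        · congr 1
          · refine sum_congr rfl fun u hu => ?_
            have h1 : u ≠ v := fun h => hvn (by rw [← h]; exact mem_union_left _ hu)
            have h2 : u ∉ D := Finset.disjoint_left.1 hdis hu
            simp [h1, h2]
          · refine sum_congr rfl fun u hu => ?_
            have h1 : u ≠ v := fun h => hvn (by rw [← h]; exact mem_union_right _ hu)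
            simp [h1, hu]
      rw [e1, hz]
      unfold bsum
      rw [← hBl]
      ring
    · unfold bsum
      refine sum_congr rfl fun u hu => ?_
      have hu' : β u = j := (mem_filter.1 hu).2
      have h0 : β u ≠ β v := fun h => hj (by rw [← hu', h])
      have h1 : u ≠ v := fun h => h0 (by rw [h])
      have h2 : u ∉ D := fun h => h0 (hDb u h)
      simp [h1, h2]

/-- The variables of a clause. -/
def vars (C : Finset (V × Bool)) : Finset V := C.image Prod.fst

/-- The invariant of a phase: in every block there are at most `q` mentioned variables that are not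
static, or at most `q + (p - 1)` variables that are not static. -/
def Inv (p q : ℕ) (Kt : Finset V) (C : Finset (V × Bool)) : Prop :=
  ∀ b, ((vars C \ Kt).filter fun u => β u = b).card ≤ q ∨
    ((univ \ Kt).filter fun u => β u = b).card ≤ q + (p - 1)

theorem inv_of_le {q : ℕ} {Kt Kt' : Finset V} {C C' : Finset (V × Bool)} (h : Inv β p q Kt C)
    (hK : Kt ⊆ Kt') (hC : ∀ u ∈ vars C', u ∉ Kt' → u ∈ vars C) : Inv β p q Kt' C' := by
  intro b
  rcases h b with h1 | h1
  · left
    refine le_trans (card_le_card ?_) h1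
    intro u hu
    rw [mem_filter, mem_sdiff] at hu ⊢
    exact ⟨⟨hC u hu.1.1 hu.1.2, fun h => hu.1.2 (hK h)⟩, hu.2⟩
  · right
    refine le_trans (card_le_card ?_) h1
    intro u hu
    rw [mem_filter, mem_sdiff] at hu ⊢
    exact ⟨⟨hu.1.1, fun h => hu.1.2 (hK h)⟩, hu.2⟩

/-- One step of the walk. -/
theorem step [Fact p.Prime] {r q : ℕ} (x : V → Bool) (Kt : Finset V)
    (Ci Cj Ck : Finset (V × Bool)) (v : V)
    (hsub : Cj.erase (v, true) ∪ Ck.erase (v, false) ⊆ Ci)
    (hgood : ∀ I : Finset (Fin m), I.card ≤ 2 * r →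
      ∃ y, ExtS Kt x Ci y ∧ ∀ e ∈ I, EqSat β E c y e)
    (hinv : Inv β p q Kt Ci) :
    ∃ (C' : Finset (V × Bool)) (Kt' : Finset V), (C' = Cj ∨ C' = Ck) ∧
      (Kt' = Kt ∨ Kt' = insert v Kt) ∧ AliveS β E c r Kt' x C' ∧ Inv β p q Kt' C' := by
  classical
  have hprem : ∀ a : Bool, ∃ C' : Finset (V × Bool), (C' = Cj ∨ C' = Ck) ∧
      C' ⊆ insert (v, !a) Ci := by
    intro a
    cases a
    · refine ⟨Cj, Or.inl rfl, fun l hl => ?_⟩
      by_cases h : l = (v, true)
      · rw [h]; exact mem_insert_self _ _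
      · exact mem_insert_of_mem (hsub (mem_union_left _ (mem_erase.2 ⟨h, hl⟩)))
    · refine ⟨Ck, Or.inr rfl, fun l hl => ?_⟩
      by_cases h : l = (v, false)
      · rw [h]; exact mem_insert_self _ _
      · exact mem_insert_of_mem (hsub (mem_union_right _ (mem_erase.2 ⟨h, hl⟩)))
  have hvar : ∀ (a : Bool) (C' : Finset (V × Bool)), C' ⊆ insert (v, !a) Ci →
      ∀ u ∈ vars C', u = v ∨ u ∈ vars Ci := by
    intro a C' hC' u hu
    obtain ⟨l, hl, rfl⟩ := mem_image.1 hu
    rcases mem_insert.1 (hC' hl) with h | h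
    · left; rw [h]
    · right; exact mem_image_of_mem _ h
  by_cases hvK : v ∈ Kt
  · -- the variable is static
    obtain ⟨C', h1, h2⟩ := hprem (x v)
    refine ⟨C', Kt, h1, Or.inl rfl, ?_, ?_⟩
    · intro I hI
      obtain ⟨y, hy, hyI⟩ := hgood I (by omega)
      refine ⟨y, ⟨hy.1, ?_⟩, hyI⟩
      rintro ⟨l, hl, hl2⟩
      rcases mem_insert.1 (h2 hl) with h | h
      · rw [h] at hl2
        simp only [hy.1 v hvK] at hl2
        exact Bool.not_ne_self (x v) hl2.symm
      · exact hy.2 ⟨l, h, hl2⟩
    · refine inv_of_le β hinv (Subset.refl _) ?_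
      intro u hu hu2
      rcases hvar _ C' h2 u hu with h | h
      · exact absurd (h ▸ hvK) hu2
      · exact h
  by_cases hvC : v ∈ vars Ci
  · -- the variable is mentioned
    obtain ⟨l0, hl0, hl0v⟩ := mem_image.1 hvC
    obtain ⟨C', h1, h2⟩ := hprem (!l0.2)
    have h3 : C' ⊆ Ci := by
      intro l hl
      rcases mem_insert.1 (h2 hl) with h | h
      · have h4 : l = l0 := by
          rw [h, Bool.not_not, ← hl0v]
        rw [h4]
        exact hl0
      · exact h
    refine ⟨C', Kt, h1, Or.inl rfl, ?_, ?_⟩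
    · intro I hI
      obtain ⟨y, hy, hyI⟩ := hgood I (by omega)
      refine ⟨y, ⟨hy.1, ?_⟩, hyI⟩
      rintro ⟨l, hl, hl2⟩
      exact hy.2 ⟨l, h3 hl, hl2⟩
    · refine inv_of_le β hinv (Subset.refl _) ?_
      intro u hu _
      exact image_subset_image h3 hu
  obtain ⟨D, hD⟩ : ∃ D, D = (univ.filter fun u : V => β u = β v ∧ u ≠ v ∧ u ∉ Kt ∧ u ∉ vars Ci) :=
    ⟨_, rfl⟩
  by_cases hDc : p - 1 ≤ D.card
  · -- the block has enough other variables: the variable becomes static
    obtain ⟨C', h1, h2⟩ := hprem (x v)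
    refine ⟨C', insert v Kt, h1, Or.inr rfl, ?_, ?_⟩
    · intro I hI
      obtain ⟨y, hy, hyI⟩ := hgood I (by omega)
      obtain ⟨y', g1, g2, g3⟩ := adjust β (p := p) (x v) y v D
        (by rw [hD]; intro h; exact (mem_filter.1 h).2.2.1 rfl)
        (by intro u hu; rw [hD] at hu; exact (mem_filter.1 hu).2.1) hDc
      have g4 : ∀ u, u ∈ Kt → y' u = y u := by
        intro u hu
        refine g2 u (fun h => hvK (h ▸ hu)) ?_
        rw [hD]
        intro h
        exact (mem_filter.1 h).2.2.2.1 hu
      refine ⟨y', ⟨?_, ?_⟩, ?_⟩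
      · intro u hu
        rcases mem_insert.1 hu with h | h
        · rw [h]; exact g1
        · rw [g4 u h]; exact hy.1 u h
      · rintro ⟨l, hl, hl2⟩
        rcases mem_insert.1 (h2 hl) with h | h
        · rw [h] at hl2
          simp only [g1] at hl2
          exact Bool.not_ne_self (x v) hl2.symm
        · apply hy.2
          refine ⟨l, h, ?_⟩
          have h5 : l.1 ∈ vars Ci := mem_image_of_mem _ h
          rw [← g2 l.1 (fun h6 => hvC (h6 ▸ h5))
            (by rw [hD]; intro h6; exact (mem_filter.1 h6).2.2.2.2 h5)]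
          exact hl2
      · intro e he
        have h5 := hyI e he
        unfold EqSat at h5 ⊢
        simp only [g3]
        exact h5
    · refine inv_of_le β hinv (subset_insert _ _) ?_
      intro u hu hu2
      rcases hvar _ C' h2 u hu with h | h
      · exact absurd (mem_insert.2 (Or.inl h)) hu2
      · exact h
  · -- the answer is free
    have hal : ∃ C' : Finset (V × Bool), (C' = Cj ∨ C' = Ck) ∧
        (∃ a : Bool, C' ⊆ insert (v, !a) Ci) ∧ AliveS β E c r Kt x C' := by
      obtain ⟨q0, a1, a2⟩ := hprem false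
      obtain ⟨q1, b1, b2⟩ := hprem true
      by_contra hcon
      have c0 : ¬ AliveS β E c r Kt x q0 := fun h => hcon ⟨q0, a1, ⟨_, a2⟩, h⟩
      have c1 : ¬ AliveS β E c r Kt x q1 := fun h => hcon ⟨q1, b1, ⟨_, b2⟩, h⟩
      unfold AliveS at c0 c1
      push Not at c0 c1
      obtain ⟨I0, hI0, d0⟩ := c0
      obtain ⟨I1, hI1, d1⟩ := c1
      obtain ⟨y, hy, hyI⟩ := hgood (I0 ∪ I1) (by have := card_union_le I0 I1; omega)
      cases hyv : y v
      · have hE : ExtS Kt x q0 y := by
          refine ⟨hy.1, ?_⟩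
          rintro ⟨l, hl, hl2⟩
          rcases mem_insert.1 (a2 hl) with h | h
          · rw [h] at hl2; simp [hyv] at hl2
          · exact hy.2 ⟨l, h, hl2⟩
        obtain ⟨e, he, he2⟩ := d0 y hE
        exact he2 (hyI e (mem_union_left _ he))
      · have hE : ExtS Kt x q1 y := by
          refine ⟨hy.1, ?_⟩
          rintro ⟨l, hl, hl2⟩
          rcases mem_insert.1 (b2 hl) with h | h
          · rw [h] at hl2; simp [hyv] at hl2
          · exact hy.2 ⟨l, h, hl2⟩
        obtain ⟨e, he, he2⟩ := d1 y hE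
        exact he2 (hyI e (mem_union_right _ he))
    obtain ⟨C', h1, ⟨a, h2⟩, h3⟩ := hal
    refine ⟨C', Kt, h1, Or.inl rfl, h3, ?_⟩
    intro b
    by_cases hb : β v = b
    · subst hb
      rcases hinv (β v) with h4 | h4
      · right
        have h5 : ((univ \ Kt).filter fun u => β u = β v) ⊆
            insert v (D ∪ ((vars Ci \ Kt).filter fun u => β u = β v)) := by
          intro u hu
          rw [mem_filter, mem_sdiff] at hu
          by_cases h6 : u = v
          · rw [h6]; exact mem_insert_self _ _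
          · refine mem_insert_of_mem ?_
            by_cases h7 : u ∈ vars Ci
            · exact mem_union_right _ (mem_filter.2 ⟨mem_sdiff.2 ⟨h7, hu.1.2⟩, hu.2⟩)
            · refine mem_union_left _ ?_
              rw [hD]
              exact mem_filter.2 ⟨mem_univ _, hu.2, h6, hu.1.2, h7⟩
        have h6 := card_le_card h5
        have h7 := card_insert_le v (D ∪ ((vars Ci \ Kt).filter fun u => β u = β v))
        have h8 := card_union_le D ((vars Ci \ Kt).filter fun u => β u = β v)
        omega
      · right; exact h4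
    · rcases hinv b with h4 | h4
      · left
        refine le_trans (card_le_card ?_) h4
        intro u hu
        rw [mem_filter, mem_sdiff] at hu ⊢
        refine ⟨⟨?_, hu.1.2⟩, hu.2⟩
        rcases hvar _ C' h2 u hu.1.1 with h | h
        · exact absurd (h ▸ hu.2) hb
        · exact h
      · right; exact h4

/-- One phase: from an alive clause some path leads to a clause that is alive and bad. -/
theorem phase [Fact p.Prime] {r q : ℕ} (hr : 1 ≤ r) (R : PathRefutation (formula β E c))
    (x : V → Bool) : ∀ (n : ℕ) (i : Fin R.size), i.val = n → ∀ (Kt : Finset V) (w : List V),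
    Path R i w → AliveS β E c r Kt x (R.line i) → Inv β p q Kt (R.line i) →
    ∃ (j : Fin R.size) (Kt' : Finset V) (u : List V), Path R j (u ++ w) ∧
      AliveS β E c r Kt' x (R.line j) ∧ BadS β E c (2 * r) Kt' x (R.line j) ∧
      Inv β p q Kt' (R.line j) ∧ (∀ v ∈ Kt', v ∉ Kt → v ∈ u) := by
  classical
  intro n
  induction n using Nat.strong_induction_on with
  | _ n IH =>
  intro i hin Kt w hpath ha hinv
  by_cases hbad : BadS β E c (2 * r) Kt x (R.line i)
  · exact ⟨i, Kt, [], hpath, ha, hbad, hinv, fun v h1 h2 => absurd h1 h2⟩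
  have hgood : ∀ I : Finset (Fin m), I.card ≤ 2 * r →
      ∃ y, ExtS Kt x (R.line i) y ∧ ∀ e ∈ I, EqSat β E c y e := by
    intro I hI
    by_contra h
    exact hbad ⟨I, hI, h⟩
  cases hrule : R.rule i with
  | none =>
    obtain ⟨C, hC, hCi⟩ := R.leaf i hrule
    obtain ⟨e, he⟩ := leaf_bad β E c hC hCi
    obtain ⟨y, hy, hy2⟩ := hgood {e} (by rw [card_singleton]; omega)
    exact (he y hy.2 (hy2 e (mem_singleton_self e))).elim
  | some t =>
    obtain ⟨j, k, v⟩ := t
    obtain ⟨hji, hki, _, _, hsub⟩ := R.step i j k v hrule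
    obtain ⟨C', Kt', h1, h2, h3, h4⟩ := step β E c (r := r) x Kt _ _ _ v hsub hgood hinv
    have key : ∃ i' : Fin R.size, i' < i ∧ R.line i' = C' ∧ Path R i' (v :: w) := by
      rcases h1 with h1 | h1
      · exact ⟨j, hji, h1.symm, Path.left hpath hrule⟩
      · exact ⟨k, hki, h1.symm, Path.right hpath hrule⟩
    obtain ⟨i', g1, g2, g3⟩ := key
    rw [← g2] at h3 h4
    obtain ⟨j', Kt'', u, k1, k2, k3, k4, k5⟩ := IH i'.val (by
      have := Fin.lt_def.1 g1
      omega) i' rfl Kt' (v :: w) g3 h3 h4
    refine ⟨j', Kt'', u ++ [v], by simpa using k1, k2, k3, k4, ?_⟩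
    intro a ha1 ha2
    rw [List.mem_append]
    by_cases ha3 : a ∈ Kt'
    · right
      rcases h2 with h2 | h2
      · exact absurd (h2 ▸ ha3) ha2
      · rw [h2] at ha3
        rcases mem_insert.1 ha3 with h | h
        · rw [h]; exact List.mem_singleton.2 rfl
        · exact absurd h ha2
    · left
      exact k5 a ha1 ha3

end

end Pool.Agent.H15.LD
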